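import Pool.Agent.W85.SD.Pt

set_option autoImplicit false
set_option linter.all false

open Complex Filter Topology MeasureTheory Set

namespace Pool.Agent.W85.SD

open Pool.Agent.H24R2.DZ

/-- the elementary integral -/
theorem cauchy_int {A c B : ℝ} (hA : 0 < A) (hc : 0 < c) :
    Integrable (fun x : ℝ => 1 / (A ^ 2 + (x * c - B) ^ 2)) ∧
    ∫ x : ℝ, 1 / (A ^ 2 + (x * c - B) ^ 2) = Real.pi / (A * c) := by
  have e : ∀ x : ℝ, 1 / (A ^ 2 + (x * c - B) ^ 2) =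
      (1 / A ^ 2) * (fun t : ℝ => (1 + t ^ 2)⁻¹) ((c / A) * (x - B / c)) := by
    intro x
    simp only
    have h1 : (c / A) * (x - B / c) = (x * c - B) / A := by field_simp
    rw [h1, div_pow]
    have h2 : 0 < A ^ 2 + (x * c - B) ^ 2 := by positivity
    have h3 : 1 + (x * c - B) ^ 2 / A ^ 2 = (A ^ 2 + (x * c - B) ^ 2) / A ^ 2 := by field_simp
    rw [h3, inv_div]
    field_simp
  have hcA : c / A ≠ 0 := by positivity
  constructor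
  · simp only [e]
    apply Integrable.const_mul
    have h1 : Integrable (fun x : ℝ => (fun t : ℝ => (1 + t ^ 2)⁻¹) ((c / A) * x)) :=
      integrable_inv_one_add_sq.comp_mul_left' hcA
    exact h1.comp_sub_right (B / c)
  · simp only [e]
    rw [integral_const_mul,
      integral_sub_right_eq_self (fun x : ℝ => (fun t : ℝ => (1 + t ^ 2)⁻¹) ((c / A) * x)) (B / c),
      Measure.integral_comp_mul_left (fun t : ℝ => (1 + t ^ 2)⁻¹) (c / A),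
      integral_univ_inv_one_add_sq, inv_div, abs_of_pos (by positivity : 0 < A / c), smul_eq_mul]
    field_simp

theorem rr_sum (y : ℕ) (b : ℕ → ℂ) (k : ℕ) (ζ : ℂ) :
    ∑ h ∈ Finset.Icc 1 y, b h * (if k ∣ h then 1 / ((h : ℂ) * ζ) else 0) =
      rr y b k * (1 / ζ) := by
  unfold rr
  rw [Finset.sum_mul, Finset.sum_filter]
  refine Finset.sum_congr rfl fun h hh => ?_
  split_ifs
  · rw [Finset.mem_Icc] at hh
    have hh0 : (h : ℂ) ≠ 0 := by exact_mod_cast (by omega : h ≠ 0)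
    by_cases hz : ζ = 0
    · subst hz; simp
    · field_simp
  · ring

theorem gf_near {C0 δ x : ℝ} {y : ℕ} (D : Dt C0 δ x y) (b : ℕ → ℂ) (T : ℕ → ℂ)
    (hT : ∀ h : ℕ, 1 ≤ h → h ≤ y → ‖ff (h * ray δ x) - T h‖ ≤ (C0 + 2) * y ^ 2) :
    ‖GF y b (ray δ x) - ∑ h ∈ Finset.Icc 1 y, b h * T h‖ ≤
      (C0 + 3) * y ^ 2 * ∑ h ∈ Finset.Icc 1 y, ‖b h‖ := by
  have hC0 := D.pC
  have hy2 := D.y2
  have hS0 : 0 ≤ ∑ h ∈ Finset.Icc 1 y, ‖b h‖ := Finset.sum_nonneg fun _ _ => norm_nonneg _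
  have h1 : GF y b (ray δ x) - ∑ h ∈ Finset.Icc 1 y, b h * T h =
      (∑ h ∈ Finset.Icc 1 y, b h * (ff (h * ray δ x) - T h)) - b 1 * cexp (-(ray δ x)) := by
    unfold GF
    simp only [mul_sub, Finset.sum_sub_distrib]
    ring
  rw [h1]
  have h2 : ‖∑ h ∈ Finset.Icc 1 y, b h * (ff (h * ray δ x) - T h)‖ ≤
      (C0 + 2) * y ^ 2 * ∑ h ∈ Finset.Icc 1 y, ‖b h‖ := by
    refine (norm_sum_le _ _).trans ?_
    rw [Finset.mul_sum]
    refine Finset.sum_le_sum fun h hh => ?_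
    rw [Finset.mem_Icc] at hh
    rw [norm_mul, mul_comm]
    exact mul_le_mul_of_nonneg_right (hT h hh.1 hh.2) (norm_nonneg _)
  have h3 : ‖b 1 * cexp (-(ray δ x))‖ ≤ ∑ h ∈ Finset.Icc 1 y, ‖b h‖ := by
    rw [norm_mul, Complex.norm_exp]
    have hs0 : 0 ≤ Real.sin δ := Real.sin_nonneg_of_nonneg_of_le_pi D.δ0.le (by
      have := D.δ1; have := Real.pi_gt_three; linarith)
    have h4 : Real.exp (-(ray δ x)).re ≤ 1 := by
      rw [Complex.neg_re, ray_re]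
      apply Real.exp_le_one_iff.mpr
      have := D.x0
      nlinarith [mul_nonneg this.le hs0]
    calc ‖b 1‖ * Real.exp (-(ray δ x)).re ≤ ‖b 1‖ * 1 := by gcongr
      _ = ‖b 1‖ := mul_one _
      _ ≤ _ := Finset.single_le_sum (f := fun h => ‖b h‖) (fun _ _ => norm_nonneg _)
        (Finset.mem_Icc.mpr ⟨le_rfl, D.y1⟩)
  calc _ ≤ _ := norm_sub_le _ _
    _ ≤ (C0 + 2) * y ^ 2 * (∑ h ∈ Finset.Icc 1 y, ‖b h‖) + ∑ h ∈ Finset.Icc 1 y, ‖b h‖ :=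
      add_le_add h2 h3
    _ ≤ _ := by nlinarith

theorem rpow7 {x e : ℝ} (h0 : 0 < x) (h7 : x ≤ 7) (he0 : 0 ≤ e) (he1 : e ≤ 1) : x ^ e ≤ 7 := by
  calc x ^ e ≤ 7 ^ e := Real.rpow_le_rpow h0.le h7 he0
    _ ≤ 7 ^ (1 : ℝ) := Real.rpow_le_rpow_of_exponent_le (by norm_num) he1
    _ = 7 := Real.rpow_one 7

theorem rpow8 {x e q : ℝ} (h0 : 0 < x) (hq : 0 < q) (h8 : x ≤ 8 * q) (he0 : 0 ≤ e) (he1 : e ≤ 1) :
    x ^ e ≤ 8 * q ^ e := by
  calc x ^ e ≤ (8 * q) ^ e := Real.rpow_le_rpow h0.le h8 he0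
    _ = 8 ^ e * q ^ e := Real.mul_rpow (by norm_num) hq.le
    _ ≤ 8 * q ^ e := by
      apply mul_le_mul_of_nonneg_right _ (Real.rpow_nonneg hq.le _)
      calc (8 : ℝ) ^ e ≤ 8 ^ (1 : ℝ) := Real.rpow_le_rpow_of_exponent_le (by norm_num) he1
        _ = 8 := Real.rpow_one 8

/-- the dominating function: one term -/
noncomputable def gt (δ : ℝ) (a k : ℕ) (x : ℝ) : ℝ :=
  1 / ((4 * ((a : ℝ) / k) * Real.sin δ) ^ 2 + (x * Real.cos δ - 2 * Real.pi * ((a : ℝ) / k)) ^ 2)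

theorem gt_nonneg (δ : ℝ) (a k : ℕ) (x : ℝ) : 0 ≤ gt δ a k x := by
  unfold gt; positivity

theorem sin_pos' {C0 δ x : ℝ} {y : ℕ} (D : Dt C0 δ x y) : 0 < Real.sin δ :=
  Real.sin_pos_of_pos_of_lt_pi D.δ0 (by have := D.δ1; have := Real.pi_gt_three; linarith)

theorem x7 {C0 δ x : ℝ} {y : ℕ} (D : Dt C0 δ x y) : x ≤ 7 := by
  refine D.x1.trans ?_
  have hc := D.c1
  rw [div_le_iff₀ (by linarith)]
  have := Real.pi_lt_d2
  linarith

theorem zeta_bd {C0 δ x : ℝ} {y : ℕ} (D : Dt C0 δ x y) {k a : ℕ} (hk : 1 ≤ k) (hky : k ≤ y)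
    (ha : 1 ≤ a) (hn : |uu δ x - a / k| ≤ 1 / (4 * (y : ℝ) ^ 2)) :
    ‖1 / (ray δ x - 2 * Real.pi * I * (a / k))‖ ^ 2 ≤ gt δ a k x ∧ x ≤ 8 * ((a : ℝ) / k) := by
  have hkR : (0 : ℝ) < k := by exact_mod_cast hk
  have hk1 : (1 : ℝ) ≤ k := by exact_mod_cast hk
  have haR : (1 : ℝ) ≤ a := by exact_mod_cast ha
  have hkyR : (k : ℝ) ≤ y := by exact_mod_cast hky
  set q : ℝ := (a : ℝ) / k with hq
  have hq0 : 0 < q := by rw [hq]; positivity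
  have hs := sin_pos' D
  have hc := D.c1
  have hx := D.x0
  have h1 : 1 / (4 * (y : ℝ) ^ 2) ≤ q / 4 := by
    rw [hq, div_div, div_le_div_iff₀ (by nlinarith) (by positivity)]
    nlinarith
  have hn2 := abs_le.mp (hn.trans h1)
  have hxc := xc_eq δ x
  have hpi1 := Real.pi_gt_d2
  have hpi2 := Real.pi_lt_d2
  have hc2 : Real.cos δ ≤ 1 := Real.cos_le_one δ
  have hlow : 4 * q ≤ x := by
    have h2 : 4 * q ≤ x * Real.cos δ := by rw [hxc]; nlinarith [hn2.1]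
    nlinarith
  have hup : x ≤ 8 * q := by
    have h2 : x * Real.cos δ ≤ 7.9 * q := by rw [hxc]; nlinarith [hn2.2]
    nlinarith
  refine ⟨?_, hup⟩
  have hre : (ray δ x - 2 * Real.pi * I * (a / k)).re = x * Real.sin δ := by
    have : (2 * Real.pi * I * ((a : ℂ) / k)) = ((2 * Real.pi * q : ℝ) : ℂ) * I := by
      rw [hq]; push_cast; ring
    rw [this, Complex.sub_re, ray_re]
    simp
  have him : (ray δ x - 2 * Real.pi * I * (a / k)).im = x * Real.cos δ - 2 * Real.pi * q := by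
    have : (2 * Real.pi * I * ((a : ℂ) / k)) = ((2 * Real.pi * q : ℝ) : ℂ) * I := by
      rw [hq]; push_cast; ring
    rw [this, Complex.sub_im, ray_im]
    simp
  have hnorm : ‖ray δ x - 2 * Real.pi * I * (a / k)‖ ^ 2 =
      (x * Real.sin δ) ^ 2 + (x * Real.cos δ - 2 * Real.pi * q) ^ 2 := by
    rw [Complex.sq_norm, Complex.normSq_apply, hre, him]; ring
  rw [norm_div, norm_one, div_pow, one_pow, hnorm]
  unfold gt
  rw [← hq]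
  apply one_div_le_one_div_of_le
  · have : 0 < (4 * q * Real.sin δ) ^ 2 := by positivity
    positivity
  · have : (4 * q * Real.sin δ) ^ 2 ≤ (x * Real.sin δ) ^ 2 := by
      apply pow_le_pow_left₀ (by positivity)
      gcongr
    linarith

theorem pointwise {C0 δ x σ : ℝ} {y : ℕ} (D : Dt C0 δ x y) (b : ℕ → ℂ) (hσ1 : 1 / 2 ≤ σ)
    (hσ2 : σ ≤ 9 / 10) :
    ‖GF y b (ray δ x)‖ ^ 2 * x ^ (2 * σ - 1) ≤
      (∑ k ∈ Finset.Icc 1 y, ∑ a ∈ Finset.Icc 1 k,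
        16 * ‖rr y b k‖ ^ 2 * ((a : ℝ) / k) ^ (2 * σ - 1) * gt δ a k x) +
      14 * ((C0 + 3) * y ^ 2 * ∑ h ∈ Finset.Icc 1 y, ‖b h‖) ^ 2 := by
  set E : ℝ := (C0 + 3) * y ^ 2 * ∑ h ∈ Finset.Icc 1 y, ‖b h‖ with hE
  have hx := D.x0
  have hC0 := D.pC
  have hS0 : 0 ≤ ∑ h ∈ Finset.Icc 1 y, ‖b h‖ := Finset.sum_nonneg fun _ _ => norm_nonneg _
  have hE0 : 0 ≤ E := by rw [hE]; positivity
  have hp7 : x ^ (2 * σ - 1) ≤ 7 := rpow7 hx (x7 D) (by linarith) (by linarith)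
  have hp0 : 0 ≤ x ^ (2 * σ - 1) := Real.rpow_nonneg hx.le _
  have hterm : ∀ k a : ℕ, 0 ≤ 16 * ‖rr y b k‖ ^ 2 * ((a : ℝ) / k) ^ (2 * σ - 1) * gt δ a k x := by
    intro k a
    have := gt_nonneg δ a k x
    positivity
  rcases D.pt with h | ⟨k, a, hk1, hky, ha1, hak, hn, h⟩
  · have h1 := gf_near D b (fun _ => 0) (fun n h1 h2 => by rw [sub_zero]; exact h n h1 h2)
    simp only [mul_zero, Finset.sum_const_zero, sub_zero] at h1
    rw [← hE] at h1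
    have h2 : ‖GF y b (ray δ x)‖ ^ 2 ≤ E ^ 2 := pow_le_pow_left₀ (norm_nonneg _) h1 2
    have h3 : ‖GF y b (ray δ x)‖ ^ 2 * x ^ (2 * σ - 1) ≤ E ^ 2 * 7 :=
      mul_le_mul h2 hp7 hp0 (by positivity)
    have h4 : 0 ≤ ∑ k ∈ Finset.Icc 1 y, ∑ a ∈ Finset.Icc 1 k,
        16 * ‖rr y b k‖ ^ 2 * ((a : ℝ) / k) ^ (2 * σ - 1) * gt δ a k x :=
      Finset.sum_nonneg fun k _ => Finset.sum_nonneg fun a _ => hterm k a
    nlinarith [sq_nonneg E]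
  · obtain ⟨hz, hx8⟩ := zeta_bd D hk1 hky ha1 hn
    set ζ : ℂ := ray δ x - 2 * Real.pi * I * (a / k) with hζ
    have h1 := gf_near D b (fun h => if k ∣ h then 1 / ((h : ℂ) * ζ) else 0) h
    rw [rr_sum, ← hE] at h1
    have h2 : ‖GF y b (ray δ x)‖ ≤ ‖rr y b k‖ * ‖1 / ζ‖ + E := by
      calc ‖GF y b (ray δ x)‖ = ‖rr y b k * (1 / ζ) + (GF y b (ray δ x) - rr y b k * (1 / ζ))‖ := by
            congr 1; ring
        _ ≤ ‖rr y b k * (1 / ζ)‖ + ‖GF y b (ray δ x) - rr y b k * (1 / ζ)‖ := norm_add_le _ _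
        _ ≤ ‖rr y b k‖ * ‖1 / ζ‖ + E := by rw [norm_mul]; linarith
    have h3 : ‖GF y b (ray δ x)‖ ^ 2 ≤ 2 * (‖rr y b k‖ ^ 2 * ‖1 / ζ‖ ^ 2) + 2 * E ^ 2 := by
      have h4 : ‖GF y b (ray δ x)‖ ^ 2 ≤ (‖rr y b k‖ * ‖1 / ζ‖ + E) ^ 2 :=
        pow_le_pow_left₀ (norm_nonneg _) h2 2
      nlinarith [sq_nonneg (‖rr y b k‖ * ‖1 / ζ‖ - E)]
    have hq0 : (0 : ℝ) < (a : ℝ) / k := by
      have : (0 : ℝ) < a := by exact_mod_cast ha1
      have : (0 : ℝ) < k := by exact_mod_cast hk1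
      positivity
    have hp8 : x ^ (2 * σ - 1) ≤ 8 * ((a : ℝ) / k) ^ (2 * σ - 1) :=
      rpow8 hx hq0 hx8 (by linarith) (by linarith)
    have hq1 : 0 ≤ ((a : ℝ) / k) ^ (2 * σ - 1) := Real.rpow_nonneg hq0.le _
    have h5 : ‖rr y b k‖ ^ 2 * ‖1 / ζ‖ ^ 2 * x ^ (2 * σ - 1) ≤
        ‖rr y b k‖ ^ 2 * gt δ a k x * (8 * ((a : ℝ) / k) ^ (2 * σ - 1)) := by
      apply mul_le_mul _ hp8 hp0 _
      · gcongr
      · have := gt_nonneg δ a k x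
        positivity
    have h6 : 16 * ‖rr y b k‖ ^ 2 * ((a : ℝ) / k) ^ (2 * σ - 1) * gt δ a k x ≤
        ∑ k ∈ Finset.Icc 1 y, ∑ a ∈ Finset.Icc 1 k,
        16 * ‖rr y b k‖ ^ 2 * ((a : ℝ) / k) ^ (2 * σ - 1) * gt δ a k x := by
      refine le_trans ?_ (Finset.single_le_sum (f := fun k => ∑ a ∈ Finset.Icc 1 k,
        16 * ‖rr y b k‖ ^ 2 * ((a : ℝ) / k) ^ (2 * σ - 1) * gt δ a k x)
        (fun k _ => Finset.sum_nonneg fun a _ => hterm k a) (Finset.mem_Icc.mpr ⟨hk1, hky⟩))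
      exact Finset.single_le_sum (f := fun a : ℕ =>
        16 * ‖rr y b k‖ ^ 2 * ((a : ℝ) / k) ^ (2 * σ - 1) * gt δ a k x)
        (fun a _ => hterm k a) (Finset.mem_Icc.mpr ⟨ha1, hak⟩)
    refine le_trans ?_ (add_le_add_left h6 _)
    calc ‖GF y b (ray δ x)‖ ^ 2 * x ^ (2 * σ - 1)
        ≤ (2 * (‖rr y b k‖ ^ 2 * ‖1 / ζ‖ ^ 2) + 2 * E ^ 2) * x ^ (2 * σ - 1) := by gcongr
      _ = 2 * (‖rr y b k‖ ^ 2 * ‖1 / ζ‖ ^ 2 * x ^ (2 * σ - 1)) + 2 * E ^ 2 * x ^ (2 * σ - 1) := by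
        ring
      _ ≤ 2 * (‖rr y b k‖ ^ 2 * gt δ a k x * (8 * ((a : ℝ) / k) ^ (2 * σ - 1))) +
          2 * E ^ 2 * 7 := by gcongr
      _ = _ := by ring

theorem gt_int {C0 δ x : ℝ} {y : ℕ} (D : Dt C0 δ x y) {a k : ℕ} (ha : 1 ≤ a) (hk : 1 ≤ k) :
    Integrable (gt δ a k) ∧ ∫ x, gt δ a k x ≤ 8 / 5 * (k / a) * δ⁻¹ := by
  have haR : (0 : ℝ) < a := by exact_mod_cast ha
  have hkR : (0 : ℝ) < k := by exact_mod_cast hk
  have hs := sin_pos' D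
  have hc := D.c1
  have hA : 0 < 4 * ((a : ℝ) / k) * Real.sin δ := by positivity
  obtain ⟨h1, h2⟩ := cauchy_int (B := 2 * Real.pi * ((a : ℝ) / k)) hA
    (by linarith : 0 < Real.cos δ)
  refine ⟨h1, ?_⟩
  have h3 : ∫ x, gt δ a k x = Real.pi / (4 * ((a : ℝ) / k) * Real.sin δ * Real.cos δ) := h2
  rw [h3]
  have hδ := D.δ0
  have hδ1 := D.δ1
  have hsin : 999 / 1000 * δ ≤ Real.sin δ := by
    have := Real.sin_gt_sub_cube hδ
    nlinarith [mul_pos hδ hδ]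
  have hpi := Real.pi_lt_d2
  rw [div_le_iff₀ (by positivity)]
  have h4 : 8 / 5 * ((k : ℝ) / a) * δ⁻¹ * (4 * ((a : ℝ) / k) * Real.sin δ * Real.cos δ) =
      32 / 5 * (Real.sin δ / δ) * Real.cos δ := by field_simp; ring
  rw [h4]
  have h5 : 999 / 1000 ≤ Real.sin δ / δ := by rw [le_div_iff₀ hδ]; exact hsin
  nlinarith

theorem ssmall : SSmall := by
  obtain ⟨C0, hC0, hff⟩ := ff_bdd
  refine ⟨100 + 98 * (C0 + 3) ^ 2, by positivity, ?_⟩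
  intro δ σ y b hδ hy hδy hσ1 hσ2
  set X : ℝ := 2 * Real.pi / Real.cos δ with hX
  have hDt : ∀ x ∈ Ioc (0 : ℝ) X, Dt C0 δ x y := fun x hx =>
    ⟨hC0, hff, hδ, hy, hδy, hx.1, hx.2⟩
  have hδ1 : δ ≤ 1 / 100 := by
    have h1 : (1 : ℝ) ≤ (y : ℝ) ^ 10 := one_le_pow₀ (by exact_mod_cast hy)
    nlinarith
  have hc := cos_ge hδ hδ1
  have hX0 : 0 < X := by rw [hX]; positivity
  have hD := hDt X ⟨hX0, le_rfl⟩
  have hX7 : X ≤ 7 := x7 hD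
  set S : ℝ := ∑ h ∈ Finset.Icc 1 y, ‖b h‖ with hS
  set Q : ℝ := ∑ h ∈ Finset.Icc 1 y, ‖b h‖ ^ 2 with hQ
  set E : ℝ := (C0 + 3) * y ^ 2 * S with hE
  have hyR : (1 : ℝ) ≤ y := by exact_mod_cast hy
  have hQ0 : 0 ≤ Q := Finset.sum_nonneg fun _ _ => by positivity
  have hSQ : S ^ 2 ≤ y * Q := by
    have := Finset.sum_mul_sq_le_sq_mul_sq (Finset.Icc 1 y) (fun _ => (1 : ℝ)) (fun h => ‖b h‖)
    simp only [one_mul, one_pow, Finset.sum_const, Nat.card_Icc, add_tsub_cancel_right,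
      nsmul_eq_mul, mul_one] at this
    exact this
  set G : ℝ → ℝ := fun x => (∑ k ∈ Finset.Icc 1 y, ∑ a ∈ Finset.Icc 1 k,
        16 * ‖rr y b k‖ ^ 2 * ((a : ℝ) / k) ^ (2 * σ - 1) * gt δ a k x) + 14 * E ^ 2 with hG
  have hpt : ∀ x ∈ Ioc (0 : ℝ) X, ‖GF y b (ray δ x)‖ ^ 2 * x ^ (2 * σ - 1) ≤ G x := fun x hx =>
    pointwise (hDt x hx) b hσ1 hσ2
  have hgi : ∀ k ∈ Finset.Icc 1 y, ∀ a ∈ Finset.Icc 1 k, IntegrableOn (fun x =>
      16 * ‖rr y b k‖ ^ 2 * ((a : ℝ) / k) ^ (2 * σ - 1) * gt δ a k x) (Ioc 0 X) := by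
    intro k hk a ha
    rw [Finset.mem_Icc] at hk ha
    exact ((gt_int hD ha.1 hk.1).1.const_mul _).integrableOn
  have hgi2 : ∀ k ∈ Finset.Icc 1 y, IntegrableOn (fun x => ∑ a ∈ Finset.Icc 1 k,
      16 * ‖rr y b k‖ ^ 2 * ((a : ℝ) / k) ^ (2 * σ - 1) * gt δ a k x) (Ioc 0 X) := by
    intro k hk
    exact integrable_finset_sum _ fun a ha => hgi k hk a ha
  have hgi3 : IntegrableOn (fun x => ∑ k ∈ Finset.Icc 1 y, ∑ a ∈ Finset.Icc 1 k,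
      16 * ‖rr y b k‖ ^ 2 * ((a : ℝ) / k) ^ (2 * σ - 1) * gt δ a k x) (Ioc 0 X) :=
    integrable_finset_sum _ fun k hk => hgi2 k hk
  have hci : IntegrableOn (fun _ : ℝ => 14 * E ^ 2) (Ioc 0 X) :=
    integrableOn_const (by rw [Real.volume_Ioc]; exact ENNReal.ofReal_ne_top)
  have hGi : IntegrableOn G (Ioc 0 X) := hgi3.add hci
  have hstep1 : ∫ x in Ioc (0 : ℝ) X, ‖GF y b (ray δ x)‖ ^ 2 * x ^ (2 * σ - 1) ≤
      ∫ x in Ioc (0 : ℝ) X, G x := by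
    apply integral_mono_of_nonneg
    · apply ae_restrict_of_forall_mem measurableSet_Ioc
      intro x hx
      have := hx.1
      simp only [Pi.zero_apply]
      positivity
    · exact hGi
    · exact ae_restrict_of_forall_mem measurableSet_Ioc hpt
  have hint : ∫ x in Ioc (0 : ℝ) X, G x = (∑ k ∈ Finset.Icc 1 y, ∑ a ∈ Finset.Icc 1 k,
      16 * ‖rr y b k‖ ^ 2 * ((a : ℝ) / k) ^ (2 * σ - 1) * ∫ x in Ioc (0 : ℝ) X, gt δ a k x) +
      14 * E ^ 2 * X := by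
    rw [hG, integral_add hgi3 hci, integral_finset_sum _ hgi2]
    congr 1
    · refine Finset.sum_congr rfl fun k hk => ?_
      rw [integral_finset_sum _ (hgi k hk)]
      refine Finset.sum_congr rfl fun a ha => ?_
      rw [integral_const_mul]
    · rw [setIntegral_const, Real.volume_real_Ioc_of_le hX0.le, sub_zero, smul_eq_mul]
      ring
  refine hstep1.trans ?_
  rw [hint]
  have hmain : ∀ k ∈ Finset.Icc 1 y, ∑ a ∈ Finset.Icc 1 k,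
      16 * ‖rr y b k‖ ^ 2 * ((a : ℝ) / k) ^ (2 * σ - 1) * (∫ x in Ioc (0 : ℝ) X, gt δ a k x) ≤
      26 * δ⁻¹ * ((k : ℝ) * (1 + Real.log k) * ‖rr y b k‖ ^ 2) := by
    intro k hk
    rw [Finset.mem_Icc] at hk
    have hkR : (0 : ℝ) < k := by exact_mod_cast hk.1
    have hsum : ∑ a ∈ Finset.Icc 1 k, (1 : ℝ) / a ≤ 1 + Real.log k := by
      have := harmonic_le_one_add_log k
      rw [harmonic_eq_sum_Icc] at this
      push_cast at this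
      simpa [one_div] using this
    calc _ ≤ ∑ a ∈ Finset.Icc 1 k, 26 * δ⁻¹ * ‖rr y b k‖ ^ 2 * k * (1 / a) := by
          refine Finset.sum_le_sum fun a ha => ?_
          rw [Finset.mem_Icc] at ha
          have haR : (1 : ℝ) ≤ a := by exact_mod_cast ha.1
          have hakR : (a : ℝ) ≤ k := by exact_mod_cast ha.2
          obtain ⟨hi1, hi2⟩ := gt_int hD ha.1 hk.1
          have hi3 : ∫ x in Ioc (0 : ℝ) X, gt δ a k x ≤ 8 / 5 * (k / a) * δ⁻¹ :=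
            (setIntegral_le_integral hi1 (Eventually.of_forall fun x => gt_nonneg δ a k x)).trans
              hi2
          have hq1 : (a : ℝ) / k ≤ 1 := div_le_one_of_le₀ hakR hkR.le
          have hq0 : 0 < (a : ℝ) / k := by positivity
          have hqp : ((a : ℝ) / k) ^ (2 * σ - 1) ≤ 1 := Real.rpow_le_one hq0.le hq1 (by linarith)
          have hqn : 0 ≤ ((a : ℝ) / k) ^ (2 * σ - 1) := Real.rpow_nonneg hq0.le _
          have hi0 : 0 ≤ ∫ x in Ioc (0 : ℝ) X, gt δ a k x :=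
            setIntegral_nonneg measurableSet_Ioc fun x _ => gt_nonneg δ a k x
          calc 16 * ‖rr y b k‖ ^ 2 * ((a : ℝ) / k) ^ (2 * σ - 1) *
                (∫ x in Ioc (0 : ℝ) X, gt δ a k x)
              ≤ 16 * ‖rr y b k‖ ^ 2 * 1 * (8 / 5 * (k / a) * δ⁻¹) := by gcongr
            _ ≤ 26 * δ⁻¹ * ‖rr y b k‖ ^ 2 * k * (1 / a) := by
                have e : 16 * ‖rr y b k‖ ^ 2 * 1 * (8 / 5 * ((k : ℝ) / a) * δ⁻¹) =
                  25.6 * (δ⁻¹ * ‖rr y b k‖ ^ 2 * k * (1 / a)) := by ring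
                have e0 : 0 ≤ δ⁻¹ * ‖rr y b k‖ ^ 2 * k * (1 / a) := by positivity
                rw [e]
                nlinarith
      _ = 26 * δ⁻¹ * ‖rr y b k‖ ^ 2 * k * ∑ a ∈ Finset.Icc 1 k, (1 : ℝ) / a := by
          rw [Finset.mul_sum]
      _ ≤ 26 * δ⁻¹ * ‖rr y b k‖ ^ 2 * k * (1 + Real.log k) := by gcongr
      _ = _ := by ring
  have hR0 : 0 ≤ ∑ k ∈ Finset.Icc 1 y, (k : ℝ) * (1 + Real.log k) * ‖rr y b k‖ ^ 2 :=
    Finset.sum_nonneg fun k hk => by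
      have := Real.log_natCast_nonneg k
      positivity
  set W : ℝ := ∑ k ∈ Finset.Icc 1 y, (k : ℝ) * (1 + Real.log k) * ‖rr y b k‖ ^ 2 with hW
  have hA : (∑ k ∈ Finset.Icc 1 y, ∑ a ∈ Finset.Icc 1 k,
      16 * ‖rr y b k‖ ^ 2 * ((a : ℝ) / k) ^ (2 * σ - 1) * ∫ x in Ioc (0 : ℝ) X, gt δ a k x) ≤
      26 * δ⁻¹ * W := by
    rw [hW, Finset.mul_sum]
    exact Finset.sum_le_sum hmain
  have hB : 14 * E ^ 2 * X ≤ 98 * (C0 + 3) ^ 2 * (y ^ 20 * Q) := by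
    have hy5 : (y : ℝ) ^ 5 ≤ (y : ℝ) ^ 20 := pow_le_pow_right₀ hyR (by norm_num)
    calc 14 * E ^ 2 * X ≤ 14 * E ^ 2 * 7 := by gcongr
      _ = 98 * (C0 + 3) ^ 2 * (y ^ 4 * S ^ 2) := by rw [hE]; ring
      _ ≤ 98 * (C0 + 3) ^ 2 * (y ^ 4 * (y * Q)) := by gcongr
      _ = 98 * (C0 + 3) ^ 2 * (y ^ 5 * Q) := by ring
      _ ≤ 98 * (C0 + 3) ^ 2 * (y ^ 20 * Q) := by gcongr
  have hδi : 0 < δ⁻¹ := inv_pos.mpr hδ
  calc _ ≤ 26 * δ⁻¹ * W + 98 * (C0 + 3) ^ 2 * (y ^ 20 * Q) := add_le_add hA hB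
    _ ≤ (100 + 98 * (C0 + 3) ^ 2) * (δ⁻¹ * W + y ^ 20 * Q) := by
      have h1 : 0 ≤ δ⁻¹ * W := by positivity
      have h2 : 0 ≤ (y : ℝ) ^ 20 * Q := by positivity
      have h3 : 0 ≤ (C0 + 3) ^ 2 := by positivity
      nlinarith [mul_nonneg h3 h1]

end Pool.Agent.W85.SD
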