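import Pool.Agent.H24R2.DZ.Spec

set_option autoImplicit false
set_option linter.all false

open Complex Filter Topology MeasureTheory Set

namespace Pool.Agent.W85.SD

open Pool.Agent.H24R2.DZ

theorem ray_re (δ x : ℝ) : (ray δ x).re = x * Real.sin δ := by
  unfold ray
  rw [mul_comm I, Complex.exp_mul_I, ← Complex.ofReal_cos, ← Complex.ofReal_sin,
    Real.cos_pi_div_two_sub, Real.sin_pi_div_two_sub]
  rw [Complex.re_ofReal_mul]
  simp only [Complex.add_re, Complex.ofReal_re, Complex.mul_re, Complex.I_re, Complex.I_im,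
    Complex.ofReal_im, mul_zero, zero_mul, sub_zero, add_zero, mul_one]

theorem ray_im (δ x : ℝ) : (ray δ x).im = x * Real.cos δ := by
  unfold ray
  rw [mul_comm I, Complex.exp_mul_I, ← Complex.ofReal_cos, ← Complex.ofReal_sin,
    Real.cos_pi_div_two_sub, Real.sin_pi_div_two_sub]
  rw [Complex.im_ofReal_mul]
  simp only [Complex.add_im, Complex.ofReal_re, Complex.mul_im, Complex.I_re, Complex.I_im,
    Complex.ofReal_im, mul_zero, zero_mul, sub_zero, add_zero, mul_one, zero_add]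

theorem ff_shift (w : ℂ) (m : ℤ) :
    ff w = ff (w - m * (2 * Real.pi * I)) + 1 / (w - m * (2 * Real.pi * I)) - 1 / w := by
  unfold ff
  rw [Complex.exp_periodic.sub_int_mul_eq m]
  ring

theorem ff_bdd : ∃ C0 : ℝ, 0 < C0 ∧ ∀ v : ℂ, |v.re| ≤ 1 → |v.im| ≤ Real.pi → ‖ff v‖ ≤ C0 := by
  set K : Set ℂ := {v : ℂ | |v.re| ≤ 1 ∧ |v.im| ≤ Real.pi ∧ 1 / 2 ≤ ‖v‖} with hK
  have hcl : IsClosed K := by
    apply IsClosed.inter
    · exact isClosed_le (continuous_abs.comp Complex.continuous_re) continuous_const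
    · apply IsClosed.inter
      · exact isClosed_le (continuous_abs.comp Complex.continuous_im) continuous_const
      · exact isClosed_le continuous_const continuous_norm
  have hbd : Bornology.IsBounded K := by
    apply (Metric.isBounded_closedBall (x := (0 : ℂ)) (r := 1 + Real.pi)).subset
    intro v hv
    rw [mem_closedBall_zero_iff]
    exact (Complex.norm_le_abs_re_add_abs_im v).trans (add_le_add hv.1 hv.2.1)
  have hcomp : IsCompact K := Metric.isCompact_of_isClosed_isBounded hcl hbd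
  have hcont : ContinuousOn ff K := by
    intro v hv
    have hv0 : v ≠ 0 := by
      rintro rfl
      have := hv.2.2
      simp at this
      linarith
    have he : cexp v - 1 ≠ 0 := by
      intro h
      rw [sub_eq_zero, Complex.exp_eq_one_iff] at h
      obtain ⟨n, hn⟩ := h
      have h1 : v.im = n * (2 * Real.pi) := by
        rw [hn]; simp
      have h2 := hv.2.1
      rw [h1, abs_mul, abs_of_pos (by positivity : (0 : ℝ) < 2 * Real.pi)] at h2
      have h3 : |(n : ℝ)| < 1 := by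
        have := Real.pi_pos
        nlinarith
      have h4 : n = 0 := by
        have : |n| < 1 := by exact_mod_cast h3
        exact Int.abs_lt_one_iff.mp this
      rw [h4] at hn
      simp at hn
      exact hv0 hn
    apply ContinuousAt.continuousWithinAt
    unfold ff
    apply ContinuousAt.sub
    · exact ContinuousAt.div continuousAt_const (by fun_prop) he
    · exact ContinuousAt.div continuousAt_const continuousAt_id hv0
  obtain ⟨C, hC⟩ := hcomp.exists_bound_of_continuousOn hcont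
  refine ⟨max C 2, lt_of_lt_of_le (by norm_num) (le_max_right _ _), ?_⟩
  intro v h1 h2
  by_cases h3 : 1 / 2 ≤ ‖v‖
  · exact (hC v ⟨h1, h2, h3⟩).trans (le_max_left _ _)
  · refine le_trans ?_ (le_max_right _ _)
    rw [not_le] at h3
    by_cases h0 : v = 0
    · subst h0
      simp [ff]
    have hv : 0 < ‖v‖ := norm_pos_iff.mpr h0
    have h4 := Complex.norm_exp_sub_one_sub_id_le (x := v) (by linarith)
    have h5 : ‖v‖ / 2 ≤ ‖cexp v - 1‖ := by
      have h6 : ‖v‖ ≤ ‖cexp v - 1‖ + ‖cexp v - 1 - v‖ := by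
        calc ‖v‖ = ‖(cexp v - 1) - (cexp v - 1 - v)‖ := by congr 1; ring
          _ ≤ _ := norm_sub_le _ _
      nlinarith
    have he : cexp v - 1 ≠ 0 := by
      rw [← norm_pos_iff]; linarith
    have h7 : ff v = -(cexp v - 1 - v) / (v * (cexp v - 1)) := by
      unfold ff
      field_simp
      ring
    rw [h7, norm_div, norm_neg, norm_mul, div_le_iff₀ (by positivity)]
    calc ‖cexp v - 1 - v‖ ≤ ‖v‖ ^ 2 := h4
      _ = 2 * (‖v‖ * (‖v‖ / 2)) := by ring
      _ ≤ 2 * (‖v‖ * ‖cexp v - 1‖) := by gcongr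

section
variable {C0 δ x : ℝ} {y : ℕ}

/-- data -/
structure Dt (C0 δ x : ℝ) (y : ℕ) : Prop where
  pC : 0 < C0
  pf : ∀ v : ℂ, |v.re| ≤ 1 → |v.im| ≤ Real.pi → ‖ff v‖ ≤ C0
  δ0 : 0 < δ
  y1 : 1 ≤ y
  δy : δ * (y : ℝ) ^ 10 ≤ 1 / 100
  x0 : 0 < x
  x1 : x ≤ 2 * Real.pi / Real.cos δ

theorem Dt.δ1 (h : Dt C0 δ x y) : δ ≤ 1 / 100 := by
  have h1 : (1 : ℝ) ≤ (y : ℝ) ^ 10 := one_le_pow₀ (by exact_mod_cast h.y1)
  have := h.δy
  have := h.δ0
  nlinarith

theorem Dt.δyy (h : Dt C0 δ x y) : δ * y ≤ 1 / 100 := by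
  have h1 : (1 : ℝ) ≤ (y : ℝ) := by exact_mod_cast h.y1
  have h2 : (y : ℝ) ≤ (y : ℝ) ^ 10 := le_self_pow₀ h1 (by norm_num)
  have := h.δy
  have := h.δ0
  nlinarith

theorem cos_ge {δ : ℝ} (h0 : 0 < δ) (h1 : δ ≤ 1 / 100) : 999 / 1000 ≤ Real.cos δ := by
  have := Real.one_sub_sq_div_two_le_cos (x := δ)
  nlinarith

theorem Dt.c1 (h : Dt C0 δ x y) : 999 / 1000 ≤ Real.cos δ := cos_ge h.δ0 h.δ1

/-- `u` -/
noncomputable def uu (δ x : ℝ) : ℝ := x * Real.cos δ / (2 * Real.pi)

theorem Dt.u0 (h : Dt C0 δ x y) : 0 < uu δ x := by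
  have := h.c1
  have := h.x0
  unfold uu
  positivity

theorem Dt.u1 (h : Dt C0 δ x y) : uu δ x ≤ 1 := by
  have h1 := h.c1
  have h2 := h.x1
  have hc : 0 < Real.cos δ := by linarith
  rw [le_div_iff₀ hc] at h2
  unfold uu
  rw [div_le_one (by positivity)]
  exact h2

theorem xc_eq (δ x : ℝ) : x * Real.cos δ = 2 * Real.pi * uu δ x := by
  unfold uu
  field_simp

/-- nearest integer -/
noncomputable def mm (δ x : ℝ) (h : ℕ) : ℤ := round ((h : ℝ) * uu δ x)

theorem mm_abs (δ x : ℝ) (h : ℕ) : |(h : ℝ) * uu δ x - mm δ x h| ≤ 1 / 2 := abs_sub_round _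

theorem Dt.mm_nonneg (D : Dt C0 δ x y) (h : ℕ) : 0 ≤ mm δ x h := by
  have h1 := mm_abs δ x h
  rw [abs_le] at h1
  have h2 := D.u0
  have h3 : (0 : ℝ) ≤ (h : ℝ) * uu δ x := by positivity
  have h4 : (-1 : ℝ) < mm δ x h := by linarith
  have h5 : (-1 : ℤ) < mm δ x h := by exact_mod_cast h4
  omega

/-- the reduced point -/
noncomputable def vv (δ x : ℝ) (h : ℕ) : ℂ := h * ray δ x - (mm δ x h) * (2 * Real.pi * I)

theorem vv_re (δ x : ℝ) (h : ℕ) : (vv δ x h).re = h * (x * Real.sin δ) := by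
  unfold vv
  simp [ray_re]

theorem vv_im (δ x : ℝ) (h : ℕ) : (vv δ x h).im = 2 * Real.pi * (h * uu δ x - mm δ x h) := by
  unfold vv
  simp [ray_im, xc_eq]
  ring

theorem Dt.ffv (D : Dt C0 δ x y) (h : ℕ) (hy : h ≤ y) : ‖ff (vv δ x h)‖ ≤ C0 := by
  apply D.pf
  · rw [vv_re]
    have hc := D.c1
    have h0 := D.δ0
    have hx := D.x0
    have hs1 : Real.sin δ ≤ δ := Real.sin_le h0.le
    have hs0 : 0 ≤ Real.sin δ := Real.sin_nonneg_of_nonneg_of_le_pi h0.le (by
      have := D.δ1; have := Real.pi_gt_three; linarith)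
    have hX : x ≤ 7 := by
      refine D.x1.trans ?_
      rw [div_le_iff₀ (by linarith)]
      have := Real.pi_lt_d2
      linarith
    rw [abs_of_nonneg (by positivity)]
    have hhy : (h : ℝ) ≤ y := by exact_mod_cast hy
    calc (h : ℝ) * (x * Real.sin δ) ≤ y * (7 * δ) := by gcongr
      _ = 7 * (δ * y) := by ring
      _ ≤ 7 * (1 / 100) := by have := D.δyy; linarith
      _ ≤ 1 := by norm_num
  · rw [vv_im, abs_mul, abs_of_pos (by positivity : (0 : ℝ) < 2 * Real.pi)]
    have := mm_abs δ x h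
    have := Real.pi_pos
    nlinarith

theorem eqv (δ x : ℝ) (h : ℕ) : ff (h * ray δ x) =
    ff (vv δ x h) + 1 / vv δ x h - 1 / (h * ray δ x) :=
  ff_shift _ _

theorem Dt.inv_w (D : Dt C0 δ x y) (h : ℕ) (hm : mm δ x h ≠ 0) : ‖1 / ((h : ℂ) * ray δ x)‖ ≤ 1 := by
  have h1 : 1 ≤ mm δ x h := by have := D.mm_nonneg h; omega
  have h2 : (1 : ℝ) ≤ mm δ x h := by exact_mod_cast h1
  have h3 := mm_abs δ x h
  rw [abs_le] at h3
  have h4 : 1 / 2 ≤ (h : ℝ) * uu δ x := by linarith
  have h5 : ((h : ℂ) * ray δ x).im = 2 * Real.pi * (h * uu δ x) := by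
    simp [ray_im, xc_eq]; ring
  have h6 : 1 ≤ ‖(h : ℂ) * ray δ x‖ := by
    refine le_trans ?_ (Complex.abs_im_le_norm _)
    rw [h5, abs_of_nonneg (by positivity)]
    have := Real.pi_gt_three
    nlinarith
  rw [norm_div, norm_one]
  exact div_le_one_of_le₀ h6 (norm_nonneg _)

theorem Dt.small (D : Dt C0 δ x y) (h : ℕ) (hy : h ≤ y) (hm : mm δ x h = 0) :
    ‖ff (h * ray δ x)‖ ≤ C0 := by
  have h1 : (h : ℂ) * ray δ x = vv δ x h := by
    unfold vv
    rw [hm]; simp
  rw [h1]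
  exact D.ffv h hy

theorem Dt.y2 (D : Dt C0 δ x y) : (1 : ℝ) ≤ (y : ℝ) ^ 2 :=
  one_le_pow₀ (by exact_mod_cast D.y1)

theorem Dt.far (D : Dt C0 δ x y) (h : ℕ) (h1 : 1 ≤ h) (hy : h ≤ y) (hm : mm δ x h ≠ 0)
    (hf : 1 / (4 * (y : ℝ) ^ 2) ≤ |uu δ x - mm δ x h / h|) :
    ‖ff (h * ray δ x)‖ ≤ (C0 + 2) * y ^ 2 := by
  have hy2 := D.y2
  have hh : (0 : ℝ) < h := by exact_mod_cast h1
  have hh1 : (1 : ℝ) ≤ h := by exact_mod_cast h1
  have hv : 1 / (y : ℝ) ^ 2 ≤ ‖vv δ x h‖ := by
    refine le_trans ?_ (Complex.abs_im_le_norm _)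
    rw [vv_im, abs_mul, abs_of_pos (by positivity : (0 : ℝ) < 2 * Real.pi)]
    have e : (h : ℝ) * uu δ x - mm δ x h = h * (uu δ x - mm δ x h / h) := by field_simp
    rw [e, abs_mul, abs_of_pos hh]
    have hpi := Real.pi_gt_three
    calc 1 / (y : ℝ) ^ 2 = 4 * 1 * (1 / (4 * (y : ℝ) ^ 2)) := by field_simp
      _ ≤ (2 * Real.pi) * h * |uu δ x - mm δ x h / h| := by
        gcongr
        linarith
      _ = _ := by ring
  have hv2 : ‖1 / vv δ x h‖ ≤ (y : ℝ) ^ 2 := by
    rw [norm_div, norm_one]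
    rw [div_le_iff₀ (lt_of_lt_of_le (by positivity) hv)]
    calc (1 : ℝ) = (y : ℝ) ^ 2 * (1 / (y : ℝ) ^ 2) :=
          (mul_one_div_cancel (ne_of_gt (by linarith))).symm
      _ ≤ _ := by gcongr
  rw [eqv]
  have e1 := D.ffv h hy
  have e2 := D.inv_w h hm
  calc ‖ff (vv δ x h) + 1 / vv δ x h - 1 / (h * ray δ x)‖
      ≤ ‖ff (vv δ x h)‖ + ‖1 / vv δ x h‖ + ‖1 / ((h : ℂ) * ray δ x)‖ :=
        (norm_sub_le _ _).trans (add_le_add_left (norm_add_le _ _) _)
    _ ≤ C0 + (y : ℝ) ^ 2 + 1 := by linarith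
    _ ≤ (C0 + 2) * y ^ 2 := by have := D.pC; nlinarith

theorem Dt.pt (D : Dt C0 δ x y) :
    (∀ h : ℕ, 1 ≤ h → h ≤ y → ‖ff (h * ray δ x)‖ ≤ (C0 + 2) * y ^ 2) ∨
    ∃ k a : ℕ, 1 ≤ k ∧ k ≤ y ∧ 1 ≤ a ∧ a ≤ k ∧ |uu δ x - a / k| ≤ 1 / (4 * (y : ℝ) ^ 2) ∧
      ∀ h : ℕ, 1 ≤ h → h ≤ y → ‖ff (h * ray δ x) -
        (if k ∣ h then 1 / ((h : ℂ) * (ray δ x - 2 * Real.pi * I * (a / k))) else 0)‖ ≤
          (C0 + 2) * y ^ 2 := by
  have hC0 := D.pC
  have hy2 := D.y2
  have hyR : (1 : ℝ) ≤ y := by exact_mod_cast D.y1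
  by_cases hn : ∃ h0 : ℕ, 1 ≤ h0 ∧ h0 ≤ y ∧ mm δ x h0 ≠ 0 ∧
      |uu δ x - mm δ x h0 / h0| ≤ 1 / (4 * (y : ℝ) ^ 2)
  · right
    obtain ⟨h0, h01, h0y, hm0, hne⟩ := hn
    have hmp : 1 ≤ mm δ x h0 := by have := D.mm_nonneg h0; omega
    obtain ⟨M, hM⟩ : ∃ M : ℕ, mm δ x h0 = M := ⟨(mm δ x h0).toNat, by omega⟩
    have hM1 : 1 ≤ M := by rw [hM] at hmp; exact_mod_cast hmp
    obtain ⟨a, k, hco, hMa, hhk⟩ := Nat.exists_coprime M h0
    set g := M.gcd h0 with hg
    have hgpos : 0 < g := Nat.gcd_pos_of_pos_left _ hM1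
    have ha1 : 1 ≤ a := by
      rcases Nat.eq_zero_or_pos a with h | h
      · rw [h, zero_mul] at hMa; omega
      · exact h
    have hk1 : 1 ≤ k := by
      rcases Nat.eq_zero_or_pos k with h | h
      · rw [h, zero_mul] at hhk; omega
      · exact h
    have hky : k ≤ y := by
      refine le_trans ?_ h0y
      rw [hhk]; exact Nat.le_mul_of_pos_right k hgpos
    have hkR : (0 : ℝ) < k := by exact_mod_cast hk1
    have hgR : (0 : ℝ) < g := by exact_mod_cast hgpos
    have hfrac : (mm δ x h0 : ℝ) / h0 = a / k := by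
      rw [hM]
      have e1 : ((M : ℕ) : ℝ) = a * g := by exact_mod_cast hMa
      have e2 : (h0 : ℝ) = k * g := by exact_mod_cast hhk
      rw [Int.cast_natCast, e1, e2]
      field_simp
    rw [hfrac] at hne
    have hkyR : (k : ℝ) ≤ y := by exact_mod_cast hky
    refine ⟨k, a, hk1, hky, ha1, ?_, hne, ?_⟩
    · rw [abs_le] at hne
      have hu := D.u1
      have h1 : (a : ℝ) / k ≤ 1 + 1 / (4 * (y : ℝ) ^ 2) := by linarith [hne.1]
      rw [div_le_iff₀ hkR] at h1
      have h2 : (k : ℝ) * (1 / (4 * (y : ℝ) ^ 2)) ≤ 1 / 4 := by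
        rw [mul_one_div, div_le_div_iff₀ (by positivity) (by norm_num)]
        nlinarith
      have h3 : (a : ℝ) < k + 1 := by nlinarith
      have h4 : a < k + 1 := by exact_mod_cast h3
      omega
    · intro h h1 hhy
      have hh : (0 : ℝ) < h := by exact_mod_cast h1
      have hhyR : (h : ℝ) ≤ y := by exact_mod_cast hhy
      by_cases hd : k ∣ h
      · rw [if_pos hd]
        obtain ⟨j, hj⟩ := hd
        have hjR : (h : ℝ) = k * j := by exact_mod_cast hj
        have hj1 : 1 ≤ j := by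
          rcases Nat.eq_zero_or_pos j with hh | hh
          · rw [hh, mul_zero] at hj; omega
          · exact hh
        have hmj : mm δ x h = ((a * j : ℕ) : ℤ) := by
          have e1 := mm_abs δ x h
          have e2 : |(h : ℝ) * uu δ x - a * j| ≤ 1 / 4 := by
            have e3 : (h : ℝ) * uu δ x - a * j = h * (uu δ x - a / k) := by
              rw [hjR]; field_simp
            rw [e3, abs_mul, abs_of_pos hh]
            calc (h : ℝ) * |uu δ x - a / k| ≤ y * (1 / (4 * (y : ℝ) ^ 2)) := by gcongr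
              _ ≤ 1 / 4 := by
                rw [mul_one_div, div_le_div_iff₀ (by positivity) (by norm_num)]
                nlinarith
          have e4 : |(mm δ x h : ℝ) - a * j| < 1 := by
            rw [abs_le] at e1 e2
            rw [abs_lt]
            constructor <;> linarith [e1.1, e1.2, e2.1, e2.2]
          have e5 : |mm δ x h - ((a * j : ℕ) : ℤ)| < 1 := by
            have : ((|mm δ x h - ((a * j : ℕ) : ℤ)| : ℤ) : ℝ) < 1 := by
              push_cast; exact e4
            exact_mod_cast this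
          have := Int.abs_lt_one_iff.mp e5
          omega
        have hmne : mm δ x h ≠ 0 := by
          rw [hmj]
          have : 1 ≤ a * j := Nat.mul_pos ha1 hj1
          omega
        have hveq : (h : ℂ) * (ray δ x - 2 * Real.pi * I * (a / k)) = vv δ x h := by
          unfold vv
          rw [hmj]
          have hkC : (k : ℂ) ≠ 0 := by exact_mod_cast (by omega : k ≠ 0)
          have hjC : (h : ℂ) = k * j := by exact_mod_cast hj
          rw [hjC]
          push_cast
          field_simp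
        rw [hveq, eqv]
        have e6 := D.ffv h hhy
        have e7 := D.inv_w h hmne
        have e8 : ff (vv δ x h) + 1 / vv δ x h - 1 / (h * ray δ x) -
            1 / vv δ x h = ff (vv δ x h) - 1 / (h * ray δ x) := by ring
        rw [e8]
        calc ‖ff (vv δ x h) - 1 / (h * ray δ x)‖ ≤ C0 + 1 :=
              (norm_sub_le _ _).trans (add_le_add e6 e7)
          _ ≤ (C0 + 2) * y ^ 2 := by nlinarith
      · rw [if_neg hd, sub_zero]
        by_cases hm : mm δ x h = 0
        · exact (D.small h hhy hm).trans (by nlinarith)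
        · apply D.far h h1 hhy hm
          have hint : (mm δ x h * k - a * h : ℤ) ≠ 0 := by
            intro e
            have e1 : (mm δ x h) * k = a * h := by linarith
            have e2 : (k : ℤ) ∣ (a : ℤ) * h := ⟨mm δ x h, by rw [← e1]; ring⟩
            have e3 : k ∣ a * h := by exact_mod_cast e2
            exact hd (hco.symm.dvd_of_dvd_mul_left e3)
          have h4 : (1 : ℝ) ≤ |(mm δ x h : ℝ) * k - a * h| := by
            have : (1 : ℤ) ≤ |mm δ x h * k - a * h| := Int.one_le_abs hint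
            exact_mod_cast this
          have h5 : 1 / (y : ℝ) ^ 2 ≤ |(mm δ x h : ℝ) / h - a / k| := by
            have e1 : (mm δ x h : ℝ) / h - a / k = (mm δ x h * k - a * h) / (h * k) := by
              field_simp
            rw [e1, abs_div, abs_of_pos (by positivity : (0 : ℝ) < h * k)]
            apply div_le_div₀ (by positivity) h4 (by positivity)
            rw [sq]
            gcongr
          have h6 : |(mm δ x h : ℝ) / h - a / k| ≤ |uu δ x - mm δ x h / h| + |uu δ x - a / k| := by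
            have : (mm δ x h : ℝ) / h - a / k =
              (uu δ x - a / k) - (uu δ x - mm δ x h / h) := by ring
            rw [this]
            refine (abs_sub _ _).trans (le_of_eq (add_comm _ _))
          have h7 : 1 / (y : ℝ) ^ 2 = 4 * (1 / (4 * (y : ℝ) ^ 2)) := by field_simp
          have h8 : 0 < 1 / (4 * (y : ℝ) ^ 2) := by positivity
          linarith
  · left
    intro h h1 hhy
    by_cases hm : mm δ x h = 0
    · exact (D.small h hhy hm).trans (by nlinarith)
    · apply D.far h h1 hhy hm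
      by_contra hcon
      rw [not_le] at hcon
      exact hn ⟨h, h1, hhy, hm, hcon.le⟩

end

end Pool.Agent.W85.SD
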